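import Mathlib
import Pool.Agent.H2.Joint1

open Finset Module Filter Topology Pool.Agent.H2.Joint

namespace Pool.Agent.Results.MP_a8d5c3_co.NotGeneric

abbrev Ix : Type := ℕ × Bool

def I (k : ℕ) : Finset Ix := range k ×ˢ univ

def pairs (k : ℕ) : Finset (Ix × Ix) := (I k ×ˢ I k).filter fun x => x.1.1 < x.2.1

def triples (k : ℕ) : Finset (Ix × Ix × Ix) :=
  (pairs k ×ˢ I k).filter (fun x => x.1.2.1 < x.2.1) |>.image fun x => (x.1.1, x.1.2, x.2)

noncomputable def ln (x : Ix × Ix) : Aff := pl x.1 ⊓ pl x.2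

open Classical in
noncomputable def L (k : ℕ) : Finset Aff := (pairs k).image ln

theorem mem_pairs {k : ℕ} {x : Ix × Ix} : x ∈ pairs k ↔ x.1.1 < x.2.1 ∧ x.2.1 < k := by
  simp only [pairs, I, mem_filter, mem_product, mem_range, mem_univ, and_true]
  omega

theorem mem_triples {k : ℕ} {x : Ix × Ix × Ix} :
    x ∈ triples k ↔ x.1.1 < x.2.1.1 ∧ x.2.1.1 < x.2.2.1 ∧ x.2.2.1 < k := by
  simp only [triples, mem_image, mem_filter, mem_product, mem_pairs, I, mem_range, mem_univ,
    and_true]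
  constructor
  · rintro ⟨y, h, rfl⟩
    simp only
    omega
  · intro h
    exact ⟨((x.1, x.2.1), x.2.2), by simp only; omega, rfl⟩

theorem card_pairs (k : ℕ) : (#(pairs k) : ℝ) = 2 * k * (k - 1) := by
  induction k with
  | zero => simp [pairs, I]
  | succ k ih =>
    have e : pairs (k + 1) = pairs k ∪ (I k ×ˢ ({k} ×ˢ univ)) := by
      ext x
      simp only [mem_pairs, mem_union, mem_product, I, mem_range, mem_univ, and_true,
        mem_singleton]
      omega
    rw [e, card_union_of_disjoint]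
    · push_cast
      rw [ih]
      simp [I]
      ring
    · rw [disjoint_left]
      intro x h1 h2
      simp only [mem_pairs, mem_product, mem_singleton] at h1 h2
      omega

theorem card_triples (k : ℕ) : (#(triples k) : ℝ) = 4 / 3 * k * (k - 1) * (k - 2) := by
  induction k with
  | zero => simp [triples, I]
  | succ k ih =>
    have e : triples (k + 1) = triples k ∪
        ((pairs k ×ˢ (univ : Finset Bool)).image fun x => (x.1.1, x.1.2, (k, x.2))) := by
      ext x
      simp only [mem_triples, mem_union, mem_image, mem_product, mem_pairs, mem_univ, and_true]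
      constructor
      · intro h
        by_cases hk : x.2.2.1 < k
        · left; omega
        · right
          refine ⟨((x.1, x.2.1), x.2.2.2), by simp only; omega, ?_⟩
          have : k = x.2.2.1 := by omega
          rw [this]
      · rintro (h | ⟨y, h, rfl⟩)
        · omega
        · simp only; omega
    rw [e, card_union_of_disjoint, card_image_of_injective]
    · push_cast
      rw [ih, card_product]
      push_cast
      rw [card_pairs]
      simp
      ring
    · rintro ⟨⟨a, b⟩, c⟩ ⟨⟨a', b'⟩, c'⟩ h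
      simp only [Prod.mk.injEq, true_and] at h
      rw [h.1, h.2.1, h.2.2]
    · rw [disjoint_left]
      intro x h1 h2
      obtain ⟨y, -, rfl⟩ := mem_image.1 h2
      simp only [mem_triples] at h1
      omega

theorem line_ln {x : Ix × Ix} (h : x.1.1 < x.2.1) : IsLine (ln x) :=
  inf_line (plane_pl _) (plane_pl _) (dir_ne_pl h.ne)

theorem ln_le {x : Ix × Ix} (h : x.1.1 < x.2.1) {r : Ix} (hr : ln x ≤ pl r) :
    r = x.1 ∨ r = x.2 :=
  no_three (line_ln h) (fun e => h.ne (congrArg Prod.fst e)) inf_le_left inf_le_right hr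

theorem ln_inj {x y : Ix × Ix} (hx : x.1.1 < x.2.1) (hy : y.1.1 < y.2.1) (h : ln x = ln y) :
    x = y := by
  rcases ln_le hx (h.le.trans inf_le_left) with a | a <;>
    rcases ln_le hx (h.le.trans inf_le_right) with b | b
  · rw [a, b] at hy; omega
  · exact Prod.ext a.symm b.symm
  · rw [a, b] at hy; omega
  · rw [a, b] at hy; omega

theorem card_L (k : ℕ) : (#(L k) : ℝ) = 2 * k * (k - 1) := by
  classical
  rw [L, card_image_of_injOn, card_pairs]
  exact fun x hx y hy h => ln_inj (mem_pairs.1 hx).1 (mem_pairs.1 hy).1 h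

theorem sort3 {k : ℕ} {p : E} {i j r : Ix} (h1 : i ≠ j) (h2 : i ≠ r) (h3 : j ≠ r) (a : i.1 < k)
    (b : j.1 < k) (c : r.1 < k) (hi : p ∈ pl i) (hj : p ∈ pl j) (hr : p ∈ pl r) :
    ∃ x ∈ triples k, p ∈ pl x.1 ∧ p ∈ pl x.2.1 ∧ p ∈ pl x.2.2 := by
  have k1 : i.1 ≠ j.1 := fun e => h1 (same hi hj e)
  have k2 : i.1 ≠ r.1 := fun e => h2 (same hi hr e)
  have k3 : j.1 ≠ r.1 := fun e => h3 (same hj hr e)
  rcases lt_or_gt_of_ne k1 with e1 | e1 <;> rcases lt_or_gt_of_ne k2 with e2 | e2 <;>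
    rcases lt_or_gt_of_ne k3 with e3 | e3
  · exact ⟨(i, j, r), mem_triples.2 ⟨e1, e3, c⟩, hi, hj, hr⟩
  · exact ⟨(i, r, j), mem_triples.2 ⟨e2, e3, b⟩, hi, hr, hj⟩
  · omega
  · exact ⟨(r, i, j), mem_triples.2 ⟨e2, e1, b⟩, hr, hi, hj⟩
  · exact ⟨(j, i, r), mem_triples.2 ⟨e1, e2, c⟩, hj, hi, hr⟩
  · omega
  · exact ⟨(j, r, i), mem_triples.2 ⟨e3, e2, a⟩, hj, hr, hi⟩
  · exact ⟨(r, j, i), mem_triples.2 ⟨e3, e1, a⟩, hr, hj, hi⟩

theorem joint_iff (k : ℕ) (p : E) :
    IsJoint (L k) p ↔ ∃ x ∈ triples k, p ∈ pl x.1 ∧ p ∈ pl x.2.1 ∧ p ∈ pl x.2.2 := by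
  classical
  constructor
  · rintro ⟨l, v, h, hv⟩
    obtain ⟨x, hx, ex⟩ := mem_image.1 (h 0).1
    obtain ⟨y, hy, ey⟩ := mem_image.1 (h 1).1
    rw [mem_pairs] at hx hy
    have px : p ∈ ln x := ex ▸ (h 0).2.1
    have py : p ∈ ln y := ey ▸ (h 1).2.1
    have hne : x ≠ y := by
      rintro rfl
      have hl : finrank ℝ (ln x).direction = 1 := line_ln hx.1
      let w : Fin 2 → (ln x).direction := ![⟨v 0, ex ▸ (h 0).2.2⟩, ⟨v 1, ey ▸ (h 1).2.2⟩]
      have hw : LinearIndependent ℝ w := by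
        refine LinearIndependent.of_comp (ln x).direction.subtype ?_
        have := hv.comp (Fin.castSucc : Fin 2 → Fin 3) (Fin.castSucc_injective 2)
        have e : (ln x).direction.subtype ∘ w = v ∘ Fin.castSucc := by
          funext i; fin_cases i <;> rfl
        rw [e]; exact this
      have := hw.fintype_card_le_finrank
      rw [hl] at this
      simp at this
    have hx12 : x.1 ≠ x.2 := fun e => hx.1.ne (congrArg Prod.fst e)
    by_cases a : y.1 = x.1 ∨ y.1 = x.2
    · by_cases b : y.2 = x.1 ∨ y.2 = x.2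
      · exfalso
        rcases a with a | a <;> rcases b with b | b
        · rw [a, b] at hy; omega
        · exact hne (Prod.ext a.symm b.symm)
        · rw [a, b] at hy; omega
        · rw [a, b] at hy; omega
      · push Not at b
        exact sort3 hx12 b.1.symm b.2.symm (by omega) hx.2 hy.2 px.1 px.2 py.2
    · push Not at a
      exact sort3 hx12 a.1.symm a.2.symm (by omega) hx.2 (by omega) px.1 px.2 py.1
  · rintro ⟨⟨i, j, r⟩, hx, hi, hj, hr⟩
    obtain ⟨h1, h2, h3⟩ := mem_triples.1 hx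
    simp only at h1 h2 h3 hi hj hr
    have dm : ∀ a b : Ix, p ∈ pl a → p ∈ pl b → dv a.1 b.1 ∈ (ln (a, b)).direction := by
      intro a b ha hb
      rw [ln, AffineSubspace.direction_inf_of_mem ha hb, dir_pl, dir_pl]
      constructor <;> simp [f_dv]
    refine ⟨![ln (i, j), ln (i, r), ln (j, r)], ![dv i.1 j.1, dv i.1 r.1, dv j.1 r.1], ?_, ?_⟩
    · intro t
      fin_cases t
      · exact ⟨mem_image_of_mem _ (mem_pairs.2 ⟨h1, by simp only; omega⟩), ⟨hi, hj⟩, dm i j hi hj⟩
      · exact ⟨mem_image_of_mem _ (mem_pairs.2 ⟨h1.trans h2, h3⟩), ⟨hi, hr⟩, dm i r hi hr⟩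
      · exact ⟨mem_image_of_mem _ (mem_pairs.2 ⟨h2, h3⟩), ⟨hj, hr⟩, dm j r hj hr⟩
    · rw [Fintype.linearIndependent_iff]
      intro g hg
      have a1 : (i.1 : ℝ) < j.1 := by exact_mod_cast h1
      have a2 : (j.1 : ℝ) < r.1 := by exact_mod_cast h2
      have b1 := congrArg (f r.1) hg
      have b2 := congrArg (f j.1) hg
      have b3 := congrArg (f i.1) hg
      simp [Fin.sum_univ_succ, f_dv, sub_eq_zero] at b1 b2 b3
      intro t
      fin_cases t
      · rcases b1 with h | h | h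
        · exact h
        · omega
        · omega
      · rcases b2 with h | h | h
        · exact h
        · omega
        · omega
      · rcases b3 with h | h | h
        · exact h
        · omega
        · omega

theorem card_joints (k : ℕ) : (joints (L k) : ℝ) = 4 / 3 * k * (k - 1) * (k - 2) := by
  classical
  rw [← card_triples, Nat.cast_inj, joints, ← Set.ncard_coe_finset]
  have hex : ∀ x : Ix × Ix × Ix, ∃ p, x ∈ triples k → p ∈ pl x.1 ∧ p ∈ pl x.2.1 ∧ p ∈ pl x.2.2 := by
    intro x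
    by_cases hx : x ∈ triples k
    · obtain ⟨h1, h2, -⟩ := mem_triples.1 hx
      obtain ⟨p, hp⟩ := exists_pt h1.ne (h1.trans h2).ne h2.ne
      exact ⟨p, fun _ => hp⟩
    · exact ⟨0, fun h => (hx h).elim⟩
  choose pt hpt using hex
  rw [← Set.InjOn.ncard_image (f := pt)]
  · congr 1
    ext p
    rw [Set.mem_setOf_eq, joint_iff]
    constructor
    · rintro ⟨x, hx, a1, a2, a3⟩
      refine ⟨x, hx, ?_⟩
      obtain ⟨b1, b2, b3⟩ := hpt x hx
      obtain ⟨h1, h2, -⟩ := mem_triples.1 hx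
      rw [mem_pl] at a1 a2 a3 b1 b2 b3
      rw [← sub_eq_zero]
      refine uniq (a := x.1.1) (b := x.2.1.1) (d := x.2.2.1) (by exact_mod_cast h1.ne)
        (by exact_mod_cast (h1.trans h2).ne) (by exact_mod_cast h2.ne) ?_ ?_ ?_
      · rw [map_sub, a1, b1, sub_self]
      · rw [map_sub, a2, b2, sub_self]
      · rw [map_sub, a3, b3, sub_self]
    · rintro ⟨x, hx, rfl⟩
      exact ⟨x, hx, hpt x hx⟩
  · rintro ⟨i, j, r⟩ hx ⟨i', j', r'⟩ hy e
    obtain ⟨a1, a2, a3⟩ := hpt _ hx
    obtain ⟨b1, b2, b3⟩ := hpt _ hy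
    rw [← e] at b1 b2 b3
    obtain ⟨h1, h2, -⟩ := mem_triples.1 hx
    obtain ⟨k1, k2, -⟩ := mem_triples.1 hy
    simp only at h1 h2 k1 k2 a1 a2 a3 b1 b2 b3
    rcases no_four h1.ne (h1.trans h2).ne h2.ne a1 a2 a3 b1 with rfl | rfl | rfl <;>
    rcases no_four h1.ne (h1.trans h2).ne h2.ne a1 a2 a3 b2 with rfl | rfl | rfl <;>
    rcases no_four h1.ne (h1.trans h2).ne h2.ne a1 a2 a3 b3 with rfl | rfl | rfl <;>
    first | rfl | omega

theorem card_I (k : ℕ) : #(I k) = 2 * k := by simp [I, mul_comm]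

open Classical in
theorem deg (k : ℕ) {P : Aff} (hP : IsPlane P) :
    #((pairs k).filter fun x => ln x ≤ P) ≤ k + if ∃ i ∈ I k, P = pl i then k else 0 := by
  set S := (pairs k).filter fun x => ln x ≤ P with hS
  have hm : ∀ x ∈ S, x.1.1 < x.2.1 ∧ x.1 ∈ I k ∧ x.2 ∈ I k ∧ ln x ≤ P := by
    intro x hx
    obtain ⟨h1, h2⟩ := mem_filter.1 hx
    obtain ⟨h3, h4⟩ := mem_pairs.1 h1
    exact ⟨h3, by simp [I]; omega, by simp [I]; omega, h2⟩
  split_ifs with h
  · obtain ⟨i, -, rfl⟩ := h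
    rw [← two_mul, ← card_I]
    refine card_le_card_of_injOn (fun x => if x.1 = i then x.2 else x.1) ?_ ?_
    · intro x hx
      obtain ⟨-, a, b, -⟩ := hm x hx
      simp only
      split_ifs <;> assumption
    · intro x hx y hy e
      obtain ⟨a, -, -, b⟩ := hm x hx
      obtain ⟨a', -, -, b'⟩ := hm y hy
      have c := ln_le a b
      have c' := ln_le a' b'
      simp only at e
      split_ifs at e with h1 h2 h2
      · exact Prod.ext (h1.trans h2.symm) e
      · have := c'.resolve_left (Ne.symm h2)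
        rw [h1, e] at a; rw [← this] at a'; omega
      · have := c.resolve_left (Ne.symm h1)
        rw [h2, ← e] at a'; rw [← this] at a; omega
      · exact Prod.ext e ((c.resolve_left (Ne.symm h1)).symm.trans (c'.resolve_left (Ne.symm h2)))
  · push Not at h
    have key : ∀ x ∈ S, ∀ y ∈ S, ∀ i ∈ I k, ln x ≤ pl i → ln y ≤ pl i → x = y := by
      intro x hx y hy i hi h1 h2
      obtain ⟨a, -, -, b⟩ := hm x hx
      obtain ⟨a', -, -, b'⟩ := hm y hy
      exact ln_inj a a' ((eq_inf hP (plane_pl i) (h i hi) (line_ln a) b h1).trans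
        (eq_inf hP (plane_pl i) (h i hi) (line_ln a') b' h2).symm)
    have : #(S ×ˢ (univ : Finset Bool)) ≤ #(I k) := by
      refine card_le_card_of_injOn (fun z => if z.2 then z.1.1 else z.1.2) ?_ ?_
      · intro z hz
        obtain ⟨-, a, b, -⟩ := hm z.1 (mem_product.1 hz).1
        simp only
        split_ifs <;> assumption
      · rintro ⟨x, e⟩ hx ⟨y, e'⟩ hy h
        have hx := (mem_product.1 hx).1
        have hy := (mem_product.1 hy).1
        obtain ⟨a, a1, a2, -⟩ := hm x hx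
        cases e <;> cases e' <;> simp only [if_true, Bool.false_eq_true, if_false] at h
        · rw [key x hx y hy _ a2 inf_le_right (h ▸ inf_le_right)]
        · have := key x hx y hy _ a2 inf_le_right (h ▸ inf_le_left)
          subst this; rw [h] at a; omega
        · have := key x hx y hy _ a1 inf_le_left (h ▸ inf_le_right)
          subst this; rw [h] at a; omega
        · rw [key x hx y hy _ a1 inf_le_left (h ▸ inf_le_left)]
    rw [card_product, card_I, card_univ, Fintype.card_bool] at this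
    omega

theorem far (k : ℕ) (hk : 10 ≤ k) (H : Finset Aff) (hH : Generic H) :
    1 / 8 * (#(L k) : ℝ) ≤ (symmDiff (L k : Set Aff) (linesOf H)).ncard := by
  classical
  obtain ⟨hfin, hc⟩ := card_lines hH
  set T := (pairs k).filter fun x => ln x ∈ linesOf H with hT
  have h1 : #T * 2 ≤ ∑ P ∈ H, #((pairs k).filter fun x => ln x ≤ P) := by
    calc #T * 2 = ∑ x ∈ T, 2 := by simp
      _ ≤ ∑ x ∈ T, #(H.filter fun P => ln x ≤ P) := by
        refine sum_le_sum fun x hx => ?_
        obtain ⟨P, hP, Q, hQ, hne, e⟩ := (mem_filter.1 hx).2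
        rw [← card_pair hne]
        refine card_le_card ?_
        intro R hR
        rcases mem_insert.1 hR with rfl | hR
        · exact mem_filter.2 ⟨hP, e.le.trans inf_le_left⟩
        · rw [mem_singleton.1 hR]
          exact mem_filter.2 ⟨hQ, e.le.trans inf_le_right⟩
      _ ≤ ∑ x ∈ pairs k, #(H.filter fun P => ln x ≤ P) :=
        sum_le_sum_of_subset (filter_subset _ _)
      _ = _ := by
        simp only [card_filter]
        exact sum_comm
  have h2 : #(H.filter fun P => ∃ i ∈ I k, P = pl i) ≤ k := by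
    have hch : ∀ P : Aff, ∃ i : Ix, (∃ i ∈ I k, P = pl i) → i ∈ I k ∧ P = pl i := by
      intro P
      by_cases h : ∃ i ∈ I k, P = pl i
      · obtain ⟨i, hi⟩ := h
        exact ⟨i, fun _ => hi⟩
      · exact ⟨(0, true), fun h' => (h h').elim⟩
    choose g hg using hch
    conv_rhs => rw [← card_range k]
    refine card_le_card_of_injOn (fun P => (g P).1) ?_ ?_
    · intro P hP
      exact (mem_product.1 (hg P (mem_filter.1 hP).2).1).1
    · intro P hP Q hQ e
      obtain ⟨a, b⟩ := mem_filter.1 hP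
      obtain ⟨a', b'⟩ := mem_filter.1 hQ
      by_contra hne
      apply dir_ne (hH.1 P a) (hH.1 Q a') (hH.2.1 P a Q a' hne)
      simp only at e
      rw [(hg P b).2, (hg Q b').2, dir_pl, dir_pl, e]
  have h3 : #T * 2 ≤ #H * k + k * k := by
    refine h1.trans ((sum_le_sum fun P hP => deg k (hH.1 P hP)).trans ?_)
    rw [sum_add_distrib, ← sum_filter, sum_const, sum_const, smul_eq_mul, smul_eq_mul]
    exact Nat.add_le_add_left (Nat.mul_le_mul_right _ h2) _
  have h4 : ((L k : Set Aff) ∩ linesOf H).ncard ≤ #T := by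
    refine le_trans (Set.ncard_le_ncard (t := (T.image ln : Finset Aff)) ?_ (Finset.finite_toSet _)) ?_
    · rintro l ⟨hl, hl'⟩
      obtain ⟨x, hx, rfl⟩ := mem_image.1 hl
      exact mem_coe.2 (mem_image_of_mem _ (mem_filter.2 ⟨hx, hl'⟩))
    · rw [Set.ncard_coe_finset]; exact card_image_le
  have h5 : (symmDiff (L k : Set Aff) (linesOf H)).ncard + 2 * ((L k : Set Aff) ∩ linesOf H).ncard =
      #(L k) + (linesOf H).ncard := by
    have a := Set.ncard_inter_add_ncard_diff_eq_ncard (L k : Set Aff) (linesOf H)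
      (Finset.finite_toSet _)
    have b := Set.ncard_inter_add_ncard_diff_eq_ncard (linesOf H) (L k : Set Aff) hfin
    rw [Set.inter_comm] at b
    rw [Set.ncard_coe_finset] at a
    rw [Set.symmDiff_def, Set.ncard_union_eq disjoint_sdiff_sdiff
      ((Finset.finite_toSet _).subset Set.diff_subset) (hfin.subset Set.diff_subset)]
    omega
  have h6 := card_L k
  have c1 : ((#H : ℝ)) * #H ≤ 2 * (linesOf H).ncard + #H := by exact_mod_cast hc
  have c3 : (#T : ℝ) * 2 ≤ #H * k + k * k := by exact_mod_cast h3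
  have c4 : (((L k : Set Aff) ∩ linesOf H).ncard : ℝ) ≤ #T := by exact_mod_cast h4
  have c5 : ((symmDiff (L k : Set Aff) (linesOf H)).ncard : ℝ) +
      2 * ((L k : Set Aff) ∩ linesOf H).ncard = #(L k) + (linesOf H).ncard := by exact_mod_cast h5
  have c6 : (10 : ℝ) ≤ k := by exact_mod_cast hk
  nlinarith [sq_nonneg ((#H : ℝ) - k - 1 / 2)]

theorem result : ∃ 𝓛 : ℕ → Finset Aff, (∀ k, ∀ l ∈ 𝓛 k, IsLine l) ∧
    Tendsto (fun k => #(𝓛 k)) atTop atTop ∧
    Tendsto (fun k => (joints (𝓛 k) : ℝ) / (#(𝓛 k) : ℝ) ^ (3 / 2 : ℝ)) atTop (𝓝 (√2 / 3)) ∧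
    ∃ c : ℝ, 0 < c ∧ ∀ᶠ k in atTop, ∀ H : Finset Aff, Generic H →
      c * (#(𝓛 k) : ℝ) ≤ (symmDiff (𝓛 k : Set Aff) (linesOf H)).ncard := by
  classical
  refine ⟨L, ?_, ?_, ?_, 1 / 8, by norm_num, (eventually_ge_atTop 10).mono far⟩
  · intro k l hl
    obtain ⟨x, hx, rfl⟩ := mem_image.1 hl
    exact line_ln (mem_pairs.1 hx).1
  · rw [← tendsto_natCast_atTop_iff (R := ℝ)]
    refine tendsto_atTop_mono' _ ?_ tendsto_natCast_atTop_atTop
    filter_upwards [eventually_ge_atTop 2] with k hk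
    have : (2 : ℝ) ≤ k := by exact_mod_cast hk
    rw [card_L]
    nlinarith
  · have t0 : Tendsto (fun k : ℕ => (k : ℝ)⁻¹) atTop (𝓝 0) := tendsto_inv_atTop_nhds_zero_nat
    have t1 : Tendsto (fun k : ℕ => 2 / 3 * (1 - 2 * (k : ℝ)⁻¹) / √(2 * (1 - (k : ℝ)⁻¹))) atTop
        (𝓝 (2 / 3 * (1 - 2 * 0) / √(2 * (1 - 0)))) :=
      ((tendsto_const_nhds.sub (t0.const_mul 2)).const_mul _).div
        ((tendsto_const_nhds.sub t0).const_mul 2).sqrt (by norm_num)
    have e : 2 / 3 * (1 - 2 * 0) / √(2 * (1 - 0)) = √2 / 3 := by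
      have : √2 * √2 = 2 := Real.mul_self_sqrt (by norm_num)
      have h2 : (√2 : ℝ) ≠ 0 := by positivity
      rw [show (2 : ℝ) * (1 - 0) = 2 by norm_num]
      field_simp
      linarith
    rw [e] at t1
    refine t1.congr' ?_
    filter_upwards [eventually_ge_atTop 2] with k hk
    have hk' : (2 : ℝ) ≤ k := by exact_mod_cast hk
    have hn : (0 : ℝ) < 2 * k * (k - 1) := by nlinarith
    have k0 : (0 : ℝ) < k := by linarith
    have k1 : (k : ℝ) - 1 ≠ 0 := by linarith
    rw [card_joints, card_L, show (3 / 2 : ℝ) = 1 + 1 / 2 by norm_num, Real.rpow_add hn,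
      Real.rpow_one, ← Real.sqrt_eq_rpow]
    have s : √(2 * (k : ℝ) * (k - 1)) = k * √(2 * (1 - (k : ℝ)⁻¹)) := by
      rw [show 2 * (k : ℝ) * (k - 1) = k * k * (2 * (1 - (k : ℝ)⁻¹)) by field_simp,
        Real.sqrt_mul (by positivity), Real.sqrt_mul_self k0.le]
    have s0 : √(2 * (1 - (k : ℝ)⁻¹)) ≠ 0 := by
      intro h
      rw [h, mul_zero] at s
      exact (Real.sqrt_pos.2 hn).ne' s
    rw [s]
    field_simp
    ring

end Pool.Agent.Results.MP_a8d5c3_co.NotGeneric
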